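import Pool.Agent.K3h31.DY.ExplR
import Pool.Agent.TH214.SD.Main

/-!
# Resolution of families of diagonal complete intersections with wild exponents over products of surfaces

Let `k` be a perfect field of characteristic `p`. Consider a product of surfaces over `k` (no surface
at all is allowed), and over it monomials `M 1, ..., M n` in pairwise disjoint sets of variables,
with arbitrary positive exponents (divisible by `p` or not) and with coefficients `u j ^ q j`, where
`u j` is an arbitrary product of functions on the surfaces and `q j` is the `p`-part of the greatest
common divisor of the exponents of `M j` (so `q j = 1` if one of the exponents of `M j` is prime to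
`p`). Consider any system of affine linear equations with constant coefficients between the `M j`,
for example a family of Brieskorn-Pham equations
`a 1 * u 1 ^ q 1 * x 1 ^ d 1 + ... + a n * u n ^ q n * x n ^ d n = c`. Let `V` be a component of the
scheme given by them which dominates the product of the surfaces. The affine varieties `Spec A`
with the function field of `V` for which `A` is integral over an algebra generated by products of
functions on the surfaces and of powers of the variables have a resolution of singularities, in all
dimensions; for example `V` itself over the product of affine open subsets of the surfaces.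

The proof:

1. The compositum `L` of the function fields of the surfaces has models on which given functions
   are locally monomials (starting library).
2. Let `K` be the function field of the component. In each block one root is tame: `M j = y j ^ q j`
   with an element `y j` of `K`, and all variables are obtained from the `y j`, from free variables
   and by extracting roots of order prime to `p` of products of these and of the `u j`. By Krull's
   theorem over `L` the transcendence degree of `K` over `L` is the one expected from the rank of
   the equations.
3. The field `k` being perfect, all `y j` are additive polynomials (with coefficients in `k`) in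
   some of them, `t 1, ..., t r`, which are algebraically independent over `L` and generate the
   field `L (y 1, ..., y n)`. The elements `t i` are adjoined to `L` one by one: all functions are
   pulled back from the smaller field, or powers of functions `t r + a i` whose differences are
   such functions, and the equations between these have nondegenerate initial forms (a maximum
   principle for the weights).
4. The roots of order prime to `p` are extracted by the theorem on tame Kummer extensions of the
   starting library, and a model on which the generators of the algebra `A` are locally monomials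
   is modified to a resolution of `Spec A`.

helper31; built on the library of the starting files (TH214, TH188, W558 and the files imported
there).
-/

set_option autoImplicit false

open AlgebraicGeometry CategoryTheory MvPolynomial Pool.Agent.TH188.WP Pool.Agent.TH188.VT
  Pool.Agent.W558 Pool.Agent.TH214 Pool.Agent.TH214.SD

universe u

namespace Pool.Agent.Results.MP_19ffc6_ag.DiagonalFamilies

section defs

variable {k K : Type u} [Field k] [Field K] [Algebra k K] {m N n : ℕ}

/-- The subfield of `K` generated by the subfields `E 1, ..., E m`, the function field of the
product of the surfaces with the function fields `E i` if these are linearly disjoint. -/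
abbrev compositum (E : Fin m → IntermediateField k K) : IntermediateField k K :=
  IntermediateField.adjoin k (⋃ i, (E i : Set K))

/-- The product of the elements `v i` of `E i` as an element of the compositum. -/
noncomputable def product (E : Fin m → IntermediateField k K) (v : ∀ i, E i) : compositum E :=
  ∏ i, ⟨(v i : K), IntermediateField.subset_adjoin k _ (Set.mem_iUnion.2 ⟨i, (v i).2⟩)⟩

/-- The power of `p` which divides exactly the greatest common divisor of the exponents `l i` of the
variables of the block `j`, that is, those with `blk i = j`. -/
def wildPart (p : ℕ) (blk : Fin N → Fin n) (l : Fin N → ℕ) (j : Fin n) : ℕ :=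
  p ^ padicValNat p ((Finset.univ.filter (fun i => blk i = j)).gcd l)

/-- The monomial `M j`: the product of `u ^ q`, where `u` is the product of the functions `v j i` in
`E i` and `q = wildPart p blk l j`, and of the powers `X i ^ l i` of the variables `X i` of the block
`j`. -/
noncomputable def blockMonomial (p : ℕ) (E : Fin m → IntermediateField k K)
    (v : Fin n → ∀ i, E i) (blk : Fin N → Fin n) (l : Fin N → ℕ) (j : Fin n) :
    MvPolynomial (Fin N) (compositum E) :=
  C (product E (v j) ^ wildPart p blk l j) *
    ∏ i ∈ Finset.univ.filter (fun i => blk i = j), X i ^ l i

/-- The ideal generated by the polynomials `c + a 1 * M 1 + ... + a n * M n` for all pairs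
`(c, a)` in the set `R`; the coefficients `c` and `a j` are constants, elements of `k`. -/
noncomputable def relationIdeal (p : ℕ) (E : Fin m → IntermediateField k K)
    (v : Fin n → ∀ i, E i) (blk : Fin N → Fin n) (l : Fin N → ℕ) (R : Set (k × (Fin n → k))) :
    Ideal (MvPolynomial (Fin N) (compositum E)) :=
  Ideal.span {f | ∃ r ∈ R, f = C (algebraMap k (compositum E) r.1) +
    ∑ j, C (algebraMap k (compositum E) (r.2 j)) * blockMonomial p E v blk l j}

end defs

/-- Let `k` be a perfect field of characteristic `p`, and let `E 1, ..., E m`, `m ≥ 0`, be linearly
disjoint function fields of smooth projective surfaces over `k` in the field extension `K` of `k` (or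
`E i = k(z i 0, z i 1)` with algebraically independent `z i j`); let `L` be their compositum. Let
the variables `X i` be divided into `n` nonempty blocks, and let `M j` be the product of the powers
`X i ^ l i`, `l i > 0`, of the variables of the block `j` and of `u j ^ q j`, where `u j ≠ 0` is a
product of elements of the `E i` and `q j` is the `p`-part of the greatest common divisor of the
exponents in the block `j`. Let `P` be a minimal prime ideal over the ideal of `L[X]` generated by
any set of polynomials `c + a 1 * M 1 + ... + a n * M n` with `c`, `a j` in `k`, let `x i` be the image of
`X i` in the field of fractions of `L[X] / P`, and suppose that `K` is this field of fractions.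
Let `A` be a finitely generated `k`-algebra with fraction field `K` which is integral over the
subalgebra generated by finitely many elements of the form
`c * b 1 * ... * b m * x 1 ^ a 1 * ... * x N ^ a N` with `c` in `k`, `b i` in `E i` and integers `a i`.
Then the variety `Spec A` has a resolution of singularities. -/
theorem result (p : ℕ) [Fact p.Prime] (k K : Type u) [Field k] [PerfectField k] [CharP k p]
    [Field K] [Algebra k K] (m N n : ℕ) (E : Fin m → IntermediateField k K)
    (hE : AreIndependentSurfaceFields E) (v : Fin n → ∀ i, E i) (hv : ∀ j i, v j i ≠ 0)
    (blk : Fin N → Fin n) (hblk : Function.Surjective blk) (l : Fin N → ℕ) (hl : ∀ i, 0 < l i)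
    (R : Set (k × (Fin n → k))) (P : Ideal (MvPolynomial (Fin N) (compositum E)))
    (hP : P ∈ (relationIdeal p E v blk l R).minimalPrimes) (x : Fin N → K)
    (hx : RingHom.ker (aeval x : MvPolynomial (Fin N) (compositum E) →ₐ[compositum E] K) = P)
    (hK : IntermediateField.adjoin (compositum E) (Set.range x) = ⊤)
    (A : Type u) [CommRing A] [IsDomain A] [Algebra k A] [Algebra.FiniteType k A] [Algebra A K]
    [IsScalarTower k A K] [IsFractionRing A K] (S : Finset A)
    (hS : ∀ s ∈ S, ∃ (c : k) (b : ∀ i, E i) (a : Fin N → ℤ),
      algebraMap A K s = c • ((∏ i, (b i : K)) * ∏ i, x i ^ a i))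
    (hA : ∀ a : A, IsIntegral (Algebra.adjoin k (S : Set A)) a) :
    IsResolvableVariety (X := Spec (CommRingCat.of A))
      (Spec.map (CommRingCat.ofHom (algebraMap k A))) := by
  classical
  have hp : p.Prime := Fact.out
  have hG0 : ∀ j, (Finset.univ.filter (fun i => blk i = j)).gcd l ≠ 0 := by
    intro j h0
    obtain ⟨i, hi⟩ := hblk j
    exact (hl i).ne' (Finset.gcd_eq_zero_iff.1 h0 i (by simp [hi]))
  have hqd : ∀ i, wildPart p blk l (blk i) ∣ l i := fun i =>
    pow_padicValNat_dvd.trans (Finset.gcd_dvd (by simp))
  have hq : ∀ j, ∃ i, blk i = j ∧ ¬ p ∣ l i / wildPart p blk l j := by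
    intro j
    by_contra hcon
    push Not at hcon
    have h1 : p ^ (padicValNat p ((Finset.univ.filter (fun i => blk i = j)).gcd l) + 1) ∣
        (Finset.univ.filter (fun i => blk i = j)).gcd l := by
      refine Finset.dvd_gcd fun i hi => ?_
      have hi' : blk i = j := by simpa using hi
      have h2 := hqd i
      rw [hi'] at h2
      have h3 := Nat.mul_dvd_mul_left (wildPart p blk l j) (hcon i hi')
      rw [Nat.mul_div_cancel' h2] at h3
      rw [pow_succ]
      exact h3
    have h2 := (padicValNat_dvd_iff_le (hG0 j)).1 h1
    omega
  have hval : ∀ r : k × (Fin n → k), Pool.Agent.K3h31.DY.lformR blk l (wildPart p blk l)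
      (fun j => Pool.Agent.K3h31.DY.prodE E (v j)) r =
      C (algebraMap k (compositum E) r.1) +
        ∑ j, C (algebraMap k (compositum E) (r.2 j)) * blockMonomial p E v blk l j := by
    intro r
    unfold blockMonomial Pool.Agent.K3h31.DY.lformR
    simp only [LinearMap.coe_mk, AddHom.coe_mk]
    congr 1
  have hP' : P ∈ (Ideal.span (Pool.Agent.K3h31.DY.lformR blk l (wildPart p blk l)
      (fun j => Pool.Agent.K3h31.DY.prodE E (v j)) '' R)).minimalPrimes := by
    have h1 : Pool.Agent.K3h31.DY.lformR blk l (wildPart p blk l)
        (fun j => Pool.Agent.K3h31.DY.prodE E (v j)) '' R =
        {f | ∃ r ∈ R, f = C (algebraMap k (compositum E) r.1) +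
          ∑ j, C (algebraMap k (compositum E) (r.2 j)) * blockMonomial p E v blk l j} := by
      ext f
      constructor
      · rintro ⟨r, hr, rfl⟩
        exact ⟨r, hr, hval r⟩
      · rintro ⟨r, hr, rfl⟩
        exact ⟨r, hr, hval r⟩
    rw [h1]
    exact hP
  set S' : Finset A := S.filter fun a => a ≠ 0 with hS'
  have hadj : Algebra.adjoin k (S' : Set A) = Algebra.adjoin k (S : Set A) := by
    apply le_antisymm
    · exact Algebra.adjoin_mono fun a ha => (Finset.mem_filter.1 ha).1
    · rw [Algebra.adjoin_le_iff]
      intro a ha
      by_cases h0 : a = 0
      · rw [h0]; exact Subalgebra.zero_mem _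
      · exact Algebra.subset_adjoin (Finset.mem_filter.2 ⟨ha, h0⟩)
  obtain ⟨ε⟩ : Nonempty ({a // a ∈ S'} ≃ Fin S'.card) := ⟨S'.equivFin⟩
  obtain ⟨T, I, hT, hI, M, Γ, hF, hR⟩ := Pool.Agent.K3h31.DY.modelR (p := p) hE v hv blk hblk l hl
    (wildPart p blk l) (fun j => padicValNat p ((Finset.univ.filter (fun i => blk i = j)).gcd l))
    (fun j => rfl) hqd hq R P hP' x hx hK (S := Fin S'.card)
    (fun b => algebraMap A K (ε.symm b).1) (fun b => by
      obtain ⟨haS, ha0⟩ := Finset.mem_filter.1 (ε.symm b).2
      exact ⟨(FaithfulSMul.algebraMap_eq_zero_iff A K).not.2 ha0, hS _ haS⟩)
  obtain ⟨T', I', hT', hI', ⟨M'⟩⟩ := LM_of_fn' M _ Γ hF hR A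
    (fun b => (ε.symm b).1) (fun b => rfl) (by
      have h1 : Set.range (fun b => (ε.symm b).1) = (S' : Set A) := by
        ext a
        constructor
        · rintro ⟨b, rfl⟩
          exact (ε.symm b).2
        · intro ha
          exact ⟨ε ⟨a, ha⟩, by simp⟩
      rw [h1, hadj]
      exact hA)
  apply isResolvableVariety_spec
  exact hasResolution_of_LM _ (IsFractionRing.injective A K) M'

end Pool.Agent.Results.MP_19ffc6_ag.DiagonalFamilies
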