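import Pool.Agent.K3h19.Chain.Hand

/-!
MP_19ffc6_ag: resolution of singularities, in all dimensions, of towers of clean cyclic covers of degree `p ^ n`
for all `n` (Witt vectors of arbitrary length), and of more general towers, over a smooth projective
variety `X` with a divisor with simple normal crossings over a perfect field of characteristic `p`.

The function field of the cover is generated by chains `z t 0, ..., z t (n t)`, `t = 1, ..., r`,
such that the vector `Z = (z t 0, ..., z t (n t))` is a solution of the equation
`F (Z) - Z = (f t + s t, 0, ..., 0)` in Witt vectors, or, more generally,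
`z t 0 ^ p - z t 0 = f t + s t` and `z t (l + 1) ^ p - z t (l + 1) = R l (z t 0, ..., z t l)` with
polynomials `R l` which have poles of order prime to `p` at infinity of the curve of the previous steps;
where the `s t` are functions in the previous fields with smaller poles; and by `p`-th roots. The
condition is that, at every point of `X`, the logarithmic differential forms of those functions `f t`
which have a pole at the point are linearly independent.

In the extensions which could be treated before (CleanCovers, CleanTowers, MixedCleanTowers) every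
step is given by a function of `X` with a clean pole of its own, and WittCovers treats chains
of length two. Here only the first step `z t 0` of a chain of arbitrary length is given by
a function of `X`.

The proof has two parts.

1. Witt vectors are reduced to chains of polynomial type. The solutions of
`F (Z) - Z = (f, 0, ..., 0)` over `k (f)` generate the field of a curve with one point at infinity.
We construct its coordinate ring `k [z 0, ..., z n]` and the pole order at infinity inductively:
the right-hand side `Q` of the next equation is a polynomial in the previous components whose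
leading terms are `p`-th powers; it is replaced by `Q - (b ^ p - b)` until the pole order is prime to
`p` or small. The exact pole order, `(p ^ (2 n + 1) + 1) / (p + 1)`, follows from the formula
`F ^ n d (Z + Z') = F ^ n d (Z) + F ^ n d (Z')`, that is, the sum of `Z i ^ (p ^ (n - i) - 1) d (Z i)` is
additive, and the genus of the curve.

2. On the models of the first steps (obtained by further blowups) `z i = x ^ (mu i) * y` with units
`y` at the poles of `f`, where the exponents `mu i` are proportional to `mu 0`. So `R (z)` is
`x ^ e` times a unit, with the exponents `e` of its leading monomial, and the logarithmic form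
of `R (z)` does not vanish on the tangent vector which is vertical over the previous step. The next
step is in normal form. By induction on the tower, a logarithmic tangent vector of `X` can be lifted to the
model if it is killed by the forms of the functions `f t`.

helper19; built on the library of the starting files (helpers 176, 558, 214, 188, 32, 356, 906, 29,
33, 369, 405, 368, 230, 191, 410, 435, 376, 382, 348, 135, 991, 366, 74, 305, 417, 440, 409, 174,
290, 392, 352, 565, 335, 924, 337, 347, 479, 959, 727, 202, 22, 349, 715, 971, 90, 153 and others).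
-/

set_option autoImplicit false

open AlgebraicGeometry CategoryTheory Pool.Agent.W558

universe u

namespace Pool.Agent.Results.MP_19ffc6_ag.LongWittCovers

/-- The coordinate ring `k[H 0 / H j, ..., H N / H j]` of the chart `H j ≠ 0` of the projective
variety over `k` with the homogeneous coordinates `H 0, ..., H N` in a field `K`. -/
def chart (k : Type u) {K : Type u} [Field k] [Field K] [Algebra k K] {N : ℕ}
    (H : Fin (N + 1) → K) (j : Fin (N + 1)) : Subalgebra k K :=
  Algebra.adjoin k (Set.range fun l => H l / H j)

/-- A tangent vector at the point `P : A → κ` of `Spec A`. -/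
structure TangentVector {k A κ : Type u} [Field k] [CommRing A] [Algebra k A] [Field κ]
    [Algebra k κ] (P : A →ₐ[k] κ) where
  /-- the derivation -/
  D : A →ₗ[k] κ
  leibniz : ∀ a b, D (a * b) = P a * D b + P b * D a

/-- A logarithmic tangent vector at the point `P : A → κ` of `Spec A` with the divisor
`x 1 * ... * x d = 0`: a tangent vector together with the values `e i` of `dx i / x i`. -/
structure LogTangentVector {k A κ : Type u} [Field k] [CommRing A] [Algebra k A] [Field κ]
    [Algebra k κ] (P : A →ₐ[k] κ) {d : ℕ} (x : Fin d → A) extends TangentVector P where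
  /-- the values of `dx i / x i` -/
  e : Fin d → κ
  D_x : ∀ i, D (x i) = P (x i) * e i

/-- The value of the logarithmic differential form
`d (x ^ n * h) / x ^ n = dh + h * ∑ i, n i * dx i / x i` on the logarithmic tangent vector `v`. -/
def LogTangentVector.form {k A κ : Type u} [Field k] [CommRing A] [Algebra k A] [Field κ]
    [Algebra k κ] {P : A →ₐ[k] κ} {d : ℕ} {x : Fin d → A} (v : LogTangentVector P x)
    (n : Fin d → ℤ) (h : A) : κ :=
  v.D h + P h * ∑ i, (n i : κ) * v.e i

/-- A smooth projective variety over `k` with the function field `K` and a divisor with simple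
normal crossings on it, with the components `1, ..., d`. -/
structure SmoothPair (k K : Type u) [Field k] [Field K] [Algebra k K] (N d : ℕ) where
  /-- the homogeneous coordinates -/
  H : Fin (N + 1) → K
  H_ne : ∀ j, H j ≠ 0
  smooth : ∀ j, Algebra.Smooth k (chart k H j)
  isFractionRing : ∀ j, IsFractionRing (chart k H j) K
  /-- the local equations of the components of the divisor on the charts -/
  x : ∀ j, Fin d → chart k H j
  x_ne : ∀ j i, x j i ≠ 0
  glue : ∀ j j' i, ∃ m : ℕ, (H j' / H j) ^ m * ((x j' i : K) / x j i) ∈ chart k H j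
  snc : ∀ j (κ : Type u) [Field κ] [Algebra k κ] (P : chart k H j →ₐ[k] κ) (i : Fin d),
    P (x j i) = 0 → ∃ D : TangentVector P, D.D (x j i) = 1 ∧
      ∀ l, l ≠ i → P (x j l) = 0 → D.D (x j l) = 0

/-- The point `P` of the chart `j` is a pole of `x ^ n`: it lies on a component `i` of the divisor
with `n i < 0`. -/
def IsPole {k K : Type u} [Field k] [Field K] [Algebra k K] {N d : ℕ} (X : SmoothPair k K N d)
    (n : Fin d → ℤ) {j : Fin (N + 1)} {κ : Type u} [Field κ] [Algebra k κ]
    (P : chart k X.H j →ₐ[k] κ) : Prop :=
  ∃ i, n i < 0 ∧ P (X.x j i) = 0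

/-- The functions `f t` and the functions `F u` (whose `p`-th roots are considered) are jointly clean:
on the chart `j` we have `f t = x ^ (n t) * h` with exponents `≤ 0` and
`F u = b ^ p + x ^ (e u) * c`, where the exponents do not depend on the chart, `b ∈ K`, and `h`, `c`
are regular functions, such that, at every point `P`, the following logarithmic differential
forms are linearly independent (as linear functions of the logarithmic tangent vectors at `P`):

* the forms `d (x ^ (n t) * h) / x ^ (n t)`, for those `t` such that `P` is a pole of `x ^ (n t)`;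
* the forms `d (x ^ (e u) * c) / x ^ (e u)`, for all `u`.

Linear independence is expressed as follows: for every one of these forms there is a logarithmic
tangent vector on which it does not vanish and on which all the other forms vanish. -/
structure CleanData (p : ℕ) {k K : Type u} [Field k] [Field K] [Algebra k K] {N d r q : ℕ}
    (X : SmoothPair k K N d) (f : Fin r → K) (F : Fin q → K) where
  /-- the exponents of the `f t` -/
  n : Fin r → Fin d → ℤ
  /-- the functions `h` on the charts -/
  h : ∀ j, Fin r → chart k X.H j
  /-- the exponents of the `F u` -/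
  e : Fin q → Fin d → ℤ
  /-- the functions `b` on the charts -/
  b : Fin (N + 1) → Fin q → K
  /-- the functions `c` on the charts -/
  c : ∀ j, Fin q → chart k X.H j
  n_nonpos : ∀ t i, n t i ≤ 0
  eq_f : ∀ j t, f t = (∏ i, (X.x j i : K) ^ n t i) * h j t
  eq_F : ∀ j u, F u = b j u ^ p + (∏ i, (X.x j i : K) ^ e u i) * c j u
  clean_f : ∀ j (κ : Type u) [Field κ] [Algebra k κ] (P : chart k X.H j →ₐ[k] κ) (t : Fin r),
    IsPole X (n t) P → ∃ v : LogTangentVector P (X.x j), v.form (n t) (h j t) ≠ 0 ∧
      ∀ t', t' ≠ t → IsPole X (n t') P → v.form (n t') (h j t') = 0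
  clean_F : ∀ j (κ : Type u) [Field κ] [Algebra k κ] (P : chart k X.H j →ₐ[k] κ) (u : Fin q),
    ∃ v : LogTangentVector P (X.x j), v.form (e u) (c j u) ≠ 0 ∧
      (∀ u', u' ≠ u → v.form (e u') (c j u') = 0) ∧
      ∀ t', IsPole X (n t') P → v.form (n t') (h j t') = 0

/-- On the chart `j`, the element `g` of the extension `K'` of `K` has smaller poles than `x ^ n`:
the quotient `y = g / x ^ n` is integral over the coordinate ring of the chart, and, for every
component `l` of the divisor with `n l < 0`, so is `y ^ e / x l` for some `e ≥ 1`. -/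
def HasSmallerPoles {k K : Type u} [Field k] [Field K] [Algebra k K] {N d : ℕ}
    (X : SmoothPair k K N d) (n : Fin d → ℤ) (j : Fin (N + 1)) {K' : Type u} [Field K']
    [Algebra K K'] (g : K') : Prop :=
  IsIntegral (chart k X.H j) (g * algebraMap K K' (∏ l, (X.x j l : K) ^ (-n l))) ∧
  ∀ l, n l < 0 → ∃ e : ℕ, 0 < e ∧ IsIntegral (chart k X.H j)
    ((g * algebraMap K K' (∏ l, (X.x j l : K) ^ (-n l))) ^ e *
      algebraMap K K' (X.x j l : K)⁻¹)

/-- The zeros and poles of the function `g` are contained in the divisor: on the charts it is the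
product of a unit and of powers of the local equations. -/
def IsBoundaryFunction {k K : Type u} [Field k] [Field K] [Algebra k K] {N d : ℕ}
    (X : SmoothPair k K N d) (g : K) : Prop :=
  ∃ γ : Fin d → ℤ, ∀ j, ∃ u : (chart k X.H j)ˣ,
    g = ((u : chart k X.H j) : K) * ∏ i, (X.x j i : K) ^ γ i

/-- The weight of the exponents `e` of a monomial in the variables `0, ..., l`: the `i`-th variable
has the weight `p ^ (l - i) * A i`. -/
def weight (p : ℕ) (A : ℕ → ℕ) {l : ℕ} (e : Fin (l + 1) →₀ ℕ) : ℕ :=
  ∑ i : Fin (l + 1), e i * (p ^ (l - i) * A i)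

/-- The numbers `A 0 = 1, A 1, ..., A n` and the polynomials `R 0, ..., R (n - 1)`, where `R l` is
a polynomial over `k` in the variables `0, ..., l`, define a tower of curves: `R l` has exactly one
monomial `a` of maximal weight, this weight is `A (l + 1)`, and the exponent of the last variable in it is
prime to `p`. -/
def IsPolynomialTower {k : Type u} [Field k] (p n : ℕ) (A : ℕ → ℕ)
    (R : ∀ l : ℕ, MvPolynomial (Fin (l + 1)) k) : Prop :=
  A 0 = 1 ∧ ∀ l, l < n → ∃ a : Fin (l + 1) →₀ ℕ, (R l).coeff a ≠ 0 ∧
    weight p A a = A (l + 1) ∧ (∀ e, (R l).coeff e ≠ 0 → e ≠ a → weight p A e < A (l + 1)) ∧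
    ¬ p ∣ a (Fin.last l)

/-- The elements `z 0, ..., z n` of `K'` form a chain: either
`z (l + 1) ^ p - z (l + 1) = R l (z 0, ..., z l)` for `l < n`, where the polynomials `R l` over `k`
define a tower of curves; or they are the first components of a Witt vector `Z` such that the
components `1, ..., n` of `F (Z) - Z` are zero, where `F` is the Frobenius of the ring of Witt vectors
(the component `0` of `F (Z) - Z` is `z 0 ^ p - z 0`). -/
def IsChain (k : Type u) {K' : Type u} [Field k] [Field K'] [Algebra k K'] (p : ℕ)
    [Fact p.Prime] (n : ℕ) (z : ℕ → K') : Prop :=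
  (∃ (A : ℕ → ℕ) (R : ∀ l : ℕ, MvPolynomial (Fin (l + 1)) k), IsPolynomialTower p n A R ∧
    ∀ l, l < n → z (l + 1) ^ p - z (l + 1) =
      MvPolynomial.aeval (fun i : Fin (l + 1) => z i) (R l)) ∨
  ∃ Z : WittVector p K', (∀ l, l ≤ n → Z.coeff l = z l) ∧
    ∀ l, 1 ≤ l → l ≤ n → (WittVector.frobenius Z - Z).coeff l = 0

/-- The chains `z t 0, ..., z t (len t)` of elements of the extension `K'` of `K` form a tower:
`z t 0` is a root of `z ^ p - z = f t + s t`, where `s t` is an element of the field
generated by the previous chains which, on every chart of `X`, has smaller poles than `x ^ (n t)`. -/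
def IsTower {p : ℕ} [Fact p.Prime] {k K : Type u} [Field k] [Field K] [Algebra k K]
    {N d r q : ℕ} {X : SmoothPair k K N d} {f : Fin r → K} {F : Fin q → K}
    (C : CleanData p X f F) {K' : Type u} [Field K'] [Algebra k K'] [Algebra K K']
    (len : Fin r → ℕ) (z : Fin r → ℕ → K') : Prop :=
  (∀ t, IsChain k p (len t) (z t)) ∧
  ∃ s : Fin r → K',
    (∀ t, z t 0 ^ p - z t 0 = algebraMap K K' (f t) + s t) ∧
    (∀ t, s t ∈ IntermediateField.adjoin K {x | ∃ i < t, ∃ l ≤ len i, x = z i l}) ∧
    ∀ t j, HasSmallerPoles X (C.n t) j (s t)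

/-- The elements `y 1, ..., y r'` of the extension `K'` of `K` are `p`-th roots of one of
the following two kinds, where `S` is a subset of `K'`.

* Every `y l ^ p` is a linear combination of the `F u` with coefficients in `k`, up to an element
  `b ^ p`, `b ∈ K (S)`.
* The zeros and poles of the `F u` are contained in the divisor, and every `y l ^ p` is a product of
  powers of the `F u`, up to a factor `b ^ p`, `b ∈ K (S)`, `b ≠ 0`. -/
def IsInseparablePart (p : ℕ) {k K : Type u} [Field k] [Field K] [Algebra k K] {N d q : ℕ}
    (X : SmoothPair k K N d) (F : Fin q → K) {K' : Type u} [Field K'] [Algebra K K'] {r' : ℕ}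
    (S : Set K') (y : Fin r' → K') : Prop :=
  (∀ l, ∃ c ∈ Submodule.span k (Set.range F), ∃ b ∈ IntermediateField.adjoin K S,
    y l ^ p = algebraMap K K' c + b ^ p) ∨
  (∀ u, IsBoundaryFunction X (F u)) ∧
    ∀ l, ∃ e : Fin q → ℤ, ∃ b ∈ IntermediateField.adjoin K S, b ≠ 0 ∧
      y l ^ p = algebraMap K K' (∏ u, F u ^ e u) * b ^ p

/-- Let `k` be a perfect field of characteristic `p`, `X` a smooth projective variety over `k` with
the function field `K` and a divisor with simple normal crossings, and let `f 1, ..., f r` and
`F 1, ..., F q` be elements of `K` which are jointly clean. Let `K'` be an extension of `K`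
generated by a tower of chains `z t 0, ..., z t (len t)` (for example by solutions
`(z t 0, ..., z t (len t))` of the equations `F (Z) - Z = (f t, 0, ..., 0)` in Witt vectors of arbitrary
length, which give cyclic extensions of degree `p ^ (len t + 1)`; up to functions `s t` of the previous
fields with smaller poles, so the extension is in general neither abelian nor Galois), and by
`p`-th roots `y l`.

Let `A` be a finitely generated `k`-algebra with fraction field `K'`, `J` a set of charts and `S` a
finite subset of `A`, such that `A` contains the coordinate rings of the charts `j ∈ J`, the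
elements of `S` are elements of `K` whose zeros and poles are contained in the divisor, and `A` is
integral over the subalgebra generated by the coordinate rings of the charts `j ∈ J` and `S`. Then
the variety `Spec A` has a resolution of singularities.

For `J = {j}` and empty `S`, `Spec A` can be the preimage of the affine chart `H j ≠ 0` in
the normalization of `X` in `K'`. -/
theorem result (p : ℕ) [Fact p.Prime] (k K K' : Type u) [Field k] [PerfectField k] [CharP k p]
    [Field K] [Algebra k K] [Field K'] [Algebra k K'] [Algebra K K'] [IsScalarTower k K K']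
    (N d r q r' : ℕ) (X : SmoothPair k K N d) (f : Fin r → K) (F : Fin q → K)
    (C : CleanData p X f F) (len : Fin r → ℕ) (z : Fin r → ℕ → K') (hz : IsTower C len z)
    (y : Fin r' → K') (hy : IsInseparablePart p X F {x | ∃ t, ∃ l ≤ len t, x = z t l} y)
    (hgen : IntermediateField.adjoin K ({x | ∃ t, ∃ l ≤ len t, x = z t l} ∪ Set.range y) = ⊤)
    (A : Type u) [CommRing A] [IsDomain A] [Algebra k A] [Algebra.FiniteType k A] [Algebra A K']
    [IsScalarTower k A K'] [IsFractionRing A K'] (J : Finset (Fin (N + 1)))
    (hJ : ∀ j ∈ J, ∀ g ∈ chart k X.H j, ∃ a : A, algebraMap A K' a = algebraMap K K' g)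
    (S : Finset A)
    (hS : ∀ a ∈ S, ∃ g : K, IsBoundaryFunction X g ∧ algebraMap A K' a = algebraMap K K' g)
    (hA : ∀ a : A, IsIntegral (Algebra.adjoin k ((S : Set A) ∪
      {b : A | ∃ j ∈ J, ∃ g ∈ chart k X.H j, algebraMap A K' b = algebraMap K K' g})) a) :
    IsResolvableVariety (X := Spec (CommRingCat.of A))
      (Spec.map (CommRingCat.ofHom (algebraMap k A))) := by
  classical
  apply isResolvableVariety_spec
  let M : LM (⊥ : Subalgebra k K) ⊤ (Fin (N + 1)) (Fin d) :=
    Pool.Agent.TH214.pairLM X.H (fun j i => (X.x j i : K)) X.H_ne X.smooth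
      (fun j i => (X.x j i).2) (fun j i h0 => X.x_ne j i (Subtype.ext h0)) X.glue (by
        intro j κ _ _ P i hi h0
        obtain ⟨D, h1, h2⟩ := X.snc j κ P i h0
        exact ⟨⟨D.D, D.leibniz⟩, h1, fun l hl hne hl0 => h2 l hne hl0⟩)
  obtain ⟨e⟩ : Nonempty ({a // a ∈ S} ≃ Fin S.card) := ⟨S.equivFin⟩
  choose gS hgb hga using fun b : Fin S.card => hS (e.symm b).1 (e.symm b).2
  have hW : Pool.Agent.K3h19.Chain.CD M f C.n (fun j t => (C.h j t : K)) := by
    refine ⟨C.n_nonpos, fun t j => (C.h j t).2, fun t j => C.eq_f j t, ?_⟩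
    intro t j κ _ _ P ht
    obtain ⟨v, hv1, hv2⟩ := C.clean_f j κ P t ht
    exact ⟨⟨⟨v.D, v.leibniz⟩, v.e, fun i hi => v.D_x i⟩, fun l hl hp => hv2 l hl.ne hp, hv1⟩
  have hfn : ∀ g : K, IsBoundaryFunction X g → ∃ γ : Fin d → ℤ, ∀ j : Fin (N + 1), ∃ w,
      w ≠ 0 ∧ w ∈ M.A j ∧ w⁻¹ ∈ M.A j ∧ g = w * ∏ i, M.x j i ^ γ i := by
    rintro g ⟨γ, hγ⟩
    refine ⟨γ, fun j => ?_⟩
    obtain ⟨u, hu⟩ := hγ j
    refine ⟨((u : chart k X.H j) : K), ?_, ((u : chart k X.H j)).2, ?_, hu⟩
    · intro h0
      exact u.ne_zero (Subtype.ext h0)
    · have h1 : ((u : chart k X.H j) : K)⁻¹ = ((u⁻¹ : (chart k X.H j)ˣ) : K) := by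
        refine inv_eq_of_mul_eq_one_right ?_
        have h2 := congrArg (fun z : chart k X.H j => (z : K)) u.mul_inv
        exact h2
      rw [h1]
      exact ((u⁻¹ : (chart k X.H j)ˣ) : chart k X.H j).2
  have hR : Frc M := by
    intro j z
    have := X.isFractionRing j
    obtain ⟨a', b', hb', rfl⟩ := IsFractionRing.div_surjective (A := chart k X.H j) z
    exact ⟨a', a'.2, b', b'.2, fun h0 => nonZeroDivisors.ne_zero hb' (Subtype.ext h0),
      div_eq_mul_inv _ _⟩
  choose γ hγ using fun b => hfn _ (hgb b)
  have hG : Fn M gS γ := hγ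
  have hln : ∀ j (κ : Type u) [Field κ] [Algebra k κ] (ψ : M.A j →ₐ[k] κ) (u : Fin q),
      ∃ v : Pool.Agent.W558.LT ψ (M.x j), Pool.Agent.W558.om v (C.e u) (C.c j u).2 ≠ 0 ∧
        (∀ l, l ≠ u → Pool.Agent.W558.om v (C.e l) (C.c j l).2 = 0) ∧
        hW.W r j κ ψ v := by
    intro j κ _ _ P u
    obtain ⟨v, h1, h2, h3⟩ := C.clean_F j κ P u
    exact ⟨⟨⟨v.D, v.leibniz⟩, v.e, fun i hi => v.D_x i⟩, h1, h2, fun l _ hp => h3 l hp⟩
  obtain ⟨hC, s, hz, hs, hsm⟩ := hz
  have hS1 : {x | ∃ t, ∃ l ≤ len t, x = z t l} = Pool.Agent.K3h19.Chain.SS z len r := by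
    ext x
    exact ⟨fun ⟨t, l, hl, hx⟩ => ⟨t, t.2, l, hl, hx⟩, fun ⟨t, _, l, hl, hx⟩ => ⟨t, l, hl, hx⟩⟩
  rw [hS1] at hgen hy
  have hGV : ∀ {G : Type} {γ0 : G → K} {Γ : G → Fin d → ℤ}, Fn M γ0 Γ →
      Pool.Agent.K3h19.Witt.GV (hW.W r) γ0
        (IntermediateField.adjoin K (Pool.Agent.K3h19.Chain.SS z len r)) := fun hG =>
    Pool.Agent.K3h19.Chain.gc_hand hW hG hR len z s hz hs hsm fun t => by
      rcases hC t with ⟨B, R, ⟨hB, hR⟩, h1⟩ | h1
      · refine Or.inl ⟨B, R, ⟨hB, fun l hl => ?_⟩, h1⟩
        obtain ⟨a, h2, h3, h4, h5⟩ := hR l hl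
        refine ⟨a, h2, h3, h4, fun i hi => ?_⟩
        have h6 : i = Fin.last l := Fin.ext (Nat.succ_injective hi)
        rw [h6]
        exact h5
      · exact Or.inr h1
  obtain ⟨T, I, hT, hI, M', Γ', hF', hR', hD'⟩ : ∃ (T I : Type) (_ : Finite T) (_ : Fintype I)
      (M' : LM (⊥ : Subalgebra k K') ⊤ T I) (Γ' : Fin S.card → I → ℤ),
      Fn M' (fun b => algebraMap K K' (gS b)) Γ' ∧ Frc M' ∧
        Pool.Agent.TH214.Dm M.A (algebraMap K K') M' := by
    rcases hy with hy | ⟨hFb, hy⟩
    · refine Pool.Agent.K3h19.Witt.gv_insep p _ (hGV hG) (F := F) (m := C.e) (b := C.b)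
        (c := fun j u => (C.c j u : K)) (fun j u => (C.c j u).2) C.eq_F hln y
        (Or.inl fun l => ?_) hgen
      obtain ⟨y', hy', b, hb, hwb⟩ := hy l
      obtain ⟨lam, hlam⟩ := (Submodule.mem_span_range_iff_exists_fun k).1 hy'
      refine ⟨lam, b, hb, ?_⟩
      rw [hwb, ← hlam]
      simp only [Algebra.smul_def]
    · choose δ hδ using fun u => hfn _ (hFb u)
      have hG2 : Fn M (Sum.elim gS F) (Sum.elim γ δ) := by
        rintro (b | u)
        · exact hG b
        · exact hδ u
      have hF0 : ∀ u, F u ≠ 0 := by
        intro u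
        obtain ⟨w', hw0, -, -, h1⟩ := hδ u 0
        rw [h1]
        exact mul_ne_zero hw0 (Finset.prod_ne_zero_iff.2 fun i _ => zpow_ne_zero _ (M.x0 0 i))
      obtain ⟨T, I, hT, hI, M', Γ', hF', hR', hD'⟩ :=
        Pool.Agent.K3h19.Witt.gv_insep p _ (hGV hG2) (F := F) (m := C.e) (b := C.b)
        (c := fun j u => (C.c j u : K)) (fun j u => (C.c j u).2) C.eq_F hln y
        (Or.inr ⟨fun u => ⟨Sum.inr u, rfl⟩, hF0, hy⟩) hgen
      exact ⟨T, I, hT, hI, M', fun b => Γ' (Sum.inl b), fun b => hF' (Sum.inl b), hR', hD'⟩
  obtain ⟨T, I, hT, hI, ⟨M''⟩⟩ := Pool.Agent.H176.Mix.LM_of_Dm k K K' M M'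
    (g := gS) (Γ' := Γ') hF' hR' hD' A J hJ (fun b => (e.symm b).1) hga (by
      have h1 : Set.range (fun b : Fin S.card => ((e.symm b).1 : A)) = (S : Set A) := by
        ext y
        constructor
        · rintro ⟨b, rfl⟩
          exact (e.symm b).2
        · intro hy
          exact ⟨e ⟨y, hy⟩, by simp⟩
      rw [h1]
      exact hA)
  exact hasResolution_of_LM _ (IsFractionRing.injective A K') M''

end Pool.Agent.Results.MP_19ffc6_ag.LongWittCovers
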