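import Pool.Agent.K3h75.LL.T10
import Pool.Agent.K3h75.LL.Tr2
import Pool.Agent.K3h37.LL.CVA
import Pool.Agent.K3h75.FF.RamG
import Pool.Agent.K3h75.FF.Ram1
import Pool.Agent.K3h64.FF.Sch3
import Pool.Agent.K3h66.FF.Glub
import Pool.Agent.K3h77.FF.D1
import Pool.Agent.K3h77.FF.D3
import Pool.Agent.K3h38.FF.Astep2D
import Pool.Agent.K3h66.FF.RegSm
import Pool.Agent.K3h8.FormsK
import Pool.Agent.K3h55.CV.Curve
import Pool.Agent.K3h77.FF.Tamf
import Pool.Agent.K3h8.NumF
import Pool.Agent.Y223.G.AllW
import Pool.Agent.K3h66.LL.Uni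
import Pool.Agent.K3h74.LL.PFC
import Pool.Agent.K3h74.LL.FDD
import Pool.Agent.K3h33.LL.Lin
import Pool.Agent.K3h12.LL.Pr
import Pool.Agent.K3h60.LL.Crv
import Pool.Agent.K3h8.LL.TP
import Pool.Agent.K3h48.LL.TPS
import Pool.Agent.K3h48.LL.FEQ
import Pool.Agent.K3h53.LL.FGC
import Pool.Agent.K3h19.LL.Fil
import Pool.Agent.K3h70.LL.FGL

/-!
MP_19ffc6_ag: resolution of singularities of quotients of products of a curve and smooth varieties,
in particular of quotients of products of curves, by finite groups with wild inertia of order `p`.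
-/

set_option autoImplicit false

open AlgebraicGeometry CategoryTheory

namespace Pool.Agent.Results.MP_19ffc6_ag.ProductQuotients

/-- The subfield `K` of `E` is the field of rational functions of a curve over `κ` with an action
of `G`: it is a finite separable extension (generated by `θ`) of the field `κ(t)`, where `t` is
transcendental over `κ` and invariant under `G`, and it is stable under `G`. -/
def IsCurveField (G : Type) {κ E : Type} [Field κ] [Field E] [Algebra κ E] [Group G]
    [MulSemiringAction G E] (K : IntermediateField κ E) : Prop :=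
  (∀ g : G, ∀ y ∈ K, g • y ∈ K) ∧ ∃ t θ : E, Transcendental κ t ∧ (∀ g : G, g • t = t) ∧
    IsSeparable (IntermediateField.adjoin κ {t}) θ ∧ K = IntermediateField.adjoin κ {t, θ}

/-- `Spec A` is an affine variety over `κ` with the field of rational functions `K`, and the group
`G` acts on it. -/
structure IsAffine (G : Type) {κ E : Type} [Field κ] [Field E] [Algebra κ E] [Group G]
    [MulSemiringAction G E] (K : IntermediateField κ E) (A : Subalgebra κ E) : Prop where
  stable : ∀ g : G, ∀ y ∈ A, g • y ∈ A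
  finiteType : Algebra.FiniteType κ A
  le : ∀ y ∈ A, y ∈ K
  fraction : ∀ y ∈ K, ∃ a ∈ A, ∃ b ∈ A, b ≠ 0 ∧ y = a / b

/-- The smooth affine open subsets `Spec (A s)` are glued along their open subsets
`ψ t / ψ s ≠ 0` to a smooth variety over `κ` with the function field `K`, which is projective over
the affine scheme `Spec R` (the `ψ s` are sections of an ample invertible sheaf; every valuation
ring which contains `R` has a centre), and the group `G` acts on this variety, stabilizes the open
subsets and fixes the sections. If `R = κ` then the variety is projective, and if there is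
only one `s` and `A s = R` then it is affine. -/
structure IsSmoothVariety (G : Type) {κ E S : Type} [Field κ] [Field E] [Algebra κ E] [Group G]
    [MulSemiringAction G E] (K : IntermediateField κ E) (R : Subalgebra κ E)
    (A : S → Subalgebra κ E) (ψ : S → E) : Prop where
  base_stable : ∀ g : G, ∀ y ∈ R, g • y ∈ R
  base_finiteType : Algebra.FiniteType κ R
  base_le : ∀ s, R ≤ A s
  affine : ∀ s, IsAffine G K (A s)
  smooth : ∀ s, Algebra.Smooth κ (A s)
  mem : ∀ s, ψ s ∈ K
  ne_zero : ∀ s, ψ s ≠ 0
  invariant : ∀ s, ∀ g : G, g • ψ s = ψ s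
  regular : ∀ s t, ψ t / ψ s ∈ A s
  glued : ∀ s t, ∀ y ∈ A t, ∃ N : ℕ, (ψ t / ψ s) ^ N * y ∈ A s
  proper : ∀ V : ValuationSubring K, (∀ y : K, (y : E) ∈ R → y ∈ V) →
    ∃ s, ∀ y : K, (y : E) ∈ A s → y ∈ V

/-- The inertia group of the valuation ring `V` of `K`: the elements of `G` which map `V` to itself
and act trivially on the residue field. -/
def inertiaGroup (G : Type) {κ E : Type} [Field κ] [Field E] [Algebra κ E] [Group G]
    [MulSemiringAction G E] {K : IntermediateField κ E} (V : ValuationSubring K) : Set G :=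
  {g | ∀ y ∈ V, ∃ e ∈ V.nonunits, (e : E) = g • (y : E) - y}

/-- `K` is the field of rational functions of a smooth curve, which is projective (`R = κ`) or
affine (`Spec R`), with a faithful action of `G` such that the orders of the inertia groups of
its points (the valuation rings which contain `R`) are not divisible by `p ^ 2`. -/
structure IsSmoothCurve (p : ℕ) (G : Type) {κ E : Type} [Field κ] [Field E] [Algebra κ E] [Group G]
    [MulSemiringAction G E] (K : IntermediateField κ E) (R : Subalgebra κ E) : Prop where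
  field : IsCurveField G K
  base : R = ⊥ ∨ IsAffine G K R ∧ IsDedekindDomain R
  faithful : ∀ g : G, (∀ y ∈ K, g • y = y) → g = 1
  inertia : ∀ V : ValuationSubring K, (∀ y : K, (y : E) ∈ R → y ∈ V) →
    ¬ p ^ 2 ∣ Nat.card (inertiaGroup G V)

/-- The action of `g` on `Spec A` is linear in étale coordinates near its fixed points: for every
prime ideal `q` of `A` with trivial action of `g` on `A / q` there are `f ∈ A \ q` and
`y 1, ..., y m ∈ A` which are étale coordinates on `Spec A[1/f]` such that `g` maps the vector space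
spanned by them to itself. (If `g` has no fixed points, then this is satisfied.) -/
def IsLocallyLinear {G κ E : Type} [Field κ] [Field E] [Algebra κ E] [Group G]
    [MulSemiringAction G E] (g : G) (A : Subalgebra κ E) : Prop :=
  ∀ q : Ideal A, q.IsPrime → (∀ a : A, ∃ b ∈ q, (b : E) = g • (a : E) - a) →
    ∃ f : A, f ∉ q ∧ ∃ (m : ℕ) (y : Fin m → A),
      (MvPolynomial.aeval (R := κ) fun i => algebraMap A (Localization.Away f) (y i)).toRingHom.Etale ∧
      ∀ i, g • (y i : E) ∈ Submodule.span κ (Set.range fun j => (y j : E))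

/-- The variety with the affine open subsets `Spec (A s)` is a curve, or the action on it of every
element of order `p` of an inertia group of a point of the curve given by `K` and `R` is linear in
étale coordinates near its fixed points. -/
def IsCurveOrLinear (p : ℕ) (G : Type) {κ E S : Type} [Field κ] [Field E] [Algebra κ E] [Group G]
    [MulSemiringAction G E] (K : IntermediateField κ E) (R : Subalgebra κ E)
    (A : S → Subalgebra κ E) : Prop :=
  (∀ s, IsDedekindDomain (A s)) ∨
    ∀ (g : G) (V : ValuationSubring K), g ≠ 1 → g ^ p = 1 → (∀ y : K, (y : E) ∈ R → y ∈ V) →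
      g ∈ inertiaGroup G V → ∀ s, IsLocallyLinear g (A s)

/-- `E` is the function field of the product of the varieties with the function fields `K i`: the
fields `K i` are linearly disjoint over `κ`, they generate `E`, and they are stable under `G`. -/
structure IsProduct (G : Type) {κ E : Type} [Field κ] [Field E] [Algebra κ E] [Group G]
    [MulSemiringAction G E] {n : ℕ} (K : Fin n → IntermediateField κ E) : Prop where
  linearlyDisjoint : ∀ (β : Fin n → Type) (b : ∀ i, β i → K i),
    (∀ i, LinearIndependent κ (b i)) →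
      LinearIndependent κ fun c : (∀ i, β i) => ∏ i, (b i (c i) : E)
  generates : ⨆ i, K i = ⊤
  stable : ∀ (g : G) i, ∀ y ∈ K i, g • y ∈ K i

/-- The product of the `Spec (U i)` is a stable affine open subset of the product of the varieties:
`Spec (U 0)` is a stable affine open subset of the curve (the elements of `R₀` are regular on it),
and `Spec (U i)`, `i ≥ 1`, is one of the given open subsets of the `i`-th variety. -/
structure IsProductChart (G : Type) {κ E : Type} [Field κ] [Field E] [Algebra κ E] [Group G]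
    [MulSemiringAction G E] (K₀ : IntermediateField κ E) (R₀ : Subalgebra κ E) {n : ℕ}
    {S : Fin n → Type} (A : ∀ i, S i → Subalgebra κ E) (U : Fin (n + 1) → Subalgebra κ E) :
    Prop where
  le : R₀ ≤ U 0
  affine : IsAffine G K₀ (U 0)
  dedekind : IsDedekindDomain (U 0)
  member : ∀ i : Fin n, ∃ s, U i.succ = A i s

/-- The ring of invariants of `G` in the coordinate ring of the product of the `Spec (U i)`. -/
def chartRing (G : Type) {κ E : Type} [Field κ] [Field E] [Algebra κ E] [Group G]
    [MulSemiringAction G E] [SMulCommClass G κ E] {n : ℕ} (U : Fin n → Subalgebra κ E) :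
    Subalgebra κ E :=
  (⨆ i, U i) ⊓ FixedPoints.subalgebra κ E G

/-- The morphism `u` identifies the spectrum of the subring `A` of `E` with an open subset of the
scheme `X` over `κ`, and it is compatible with the morphism `ξ` from the spectrum of `E`. -/
structure IsOpenChart {κ E : Type} [Field κ] [Field E] [Algebra κ E] {X : Scheme.{0}}
    (f : X ⟶ Spec (CommRingCat.of κ)) (ξ : Spec (CommRingCat.of E) ⟶ X) (A : Subalgebra κ E)
    (u : Spec (CommRingCat.of A) ⟶ X) : Prop where
  openImmersion : IsOpenImmersion u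
  structureMorphism : u ≫ f = Spec.map (CommRingCat.ofHom (algebraMap κ A))
  generic : Spec.map (CommRingCat.ofHom (algebraMap A E)) ≫ u = ξ

/-- `X` is the quotient by `G` of the product of the curve given by `K₀` and `R₀` (whose points
are the valuation rings which contain `R₀`) and of the varieties given by the `A i`: an integral
separated scheme of finite type over `κ`, covered by the quotients of the products of the stable
affine open subsets, with the morphism `ξ` from the generic point of the product. -/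
structure IsQuotient (G : Type) {κ E : Type} [Field κ] [Field E] [Algebra κ E] [Group G]
    [MulSemiringAction G E] [SMulCommClass G κ E] (K₀ : IntermediateField κ E)
    (R₀ : Subalgebra κ E) {n : ℕ} {S : Fin n → Type} (A : ∀ i, S i → Subalgebra κ E)
    {X : Scheme.{0}} (f : X ⟶ Spec (CommRingCat.of κ)) (ξ : Spec (CommRingCat.of E) ⟶ X) :
    Prop where
  integral : AlgebraicGeometry.IsIntegral X
  separated : IsSeparated f
  finiteType : LocallyOfFiniteType f ∧ QuasiCompact f
  chart : ∀ U : Fin (n + 1) → Subalgebra κ E, IsProductChart G K₀ R₀ A U →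
    ∃ u, IsOpenChart f ξ (chartRing G U) u
  cover : ∀ y : X, ∃ (U : Fin (n + 1) → Subalgebra κ E) (u : _ ⟶ X),
    IsProductChart G K₀ R₀ A U ∧ IsOpenChart f ξ (chartRing G U) u ∧ y ∈ Set.range u

/-- A resolution of singularities of the scheme `X` over the field `κ`: an integral scheme `Y`,
smooth over `κ`, with a proper morphism to `X` which is an isomorphism over a dense open subset. -/
def HasResolution {κ : Type} [Field κ] {X : Scheme.{0}} (f : X ⟶ Spec (CommRingCat.of κ)) : Prop :=
  ∃ (Y : Scheme.{0}) (π : Y ⟶ X), AlgebraicGeometry.IsIntegral Y ∧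
    AlgebraicGeometry.IsProper π ∧ AlgebraicGeometry.Smooth (π ≫ f) ∧
    ∃ U : X.Opens, Dense (U : Set X) ∧ IsIso (π ∣_ U)

/-- Let `κ` be a perfect field of characteristic `p` and let `G` be a finite group.

(1) Every smooth projective curve over `κ` with an action of `G` has an atlas as in
`IsSmoothVariety` (consisting of two affine curves).

(2) Let `X_0` be a smooth curve with the function field `K 0`, projective (`R₀ = κ`) or affine
(`Spec R₀`), with a faithful action of `G` such that the orders of the inertia groups of the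
points are not divisible by `p ^ 2`. Let `X_1, ..., X_n` be smooth varieties with actions of `G`,
projective over affine schemes, such that every `X_i` is a curve or the action on `X_i` of every
element of order `p` of an inertia group of a point of `X_0` is linear in étale coordinates near
the fixed points. If the product is integral, with the function field `E`, then the quotient
`(X_0 × X_1 × ... × X_n) / G` has a resolution of singularities. -/
theorem result :
    ∀ (κ : Type) [Field κ] [PerfectField κ] (p : ℕ) [Fact p.Prime] [CharP κ p] (G : Type)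
      [Group G] [Finite G] (E : Type) [Field E] [Algebra κ E] [MulSemiringAction G E]
      [SMulCommClass G κ E],
    (∀ K : IntermediateField κ E, IsCurveField G K →
      ∃ (A : Bool → Subalgebra κ E) (ψ : Bool → E), IsSmoothVariety G K ⊥ A ψ ∧
        ∀ s, IsDedekindDomain (A s)) ∧
    ∀ (n : ℕ) (K : Fin (n + 1) → IntermediateField κ E), IsProduct G K →
      ∀ R₀ : Subalgebra κ E, IsSmoothCurve p G (K 0) R₀ →
      ∀ (S : Fin n → Type) [∀ i, Finite (S i)] (R : Fin n → Subalgebra κ E)
      (A : ∀ i, S i → Subalgebra κ E) (ψ : ∀ i, S i → E),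
      (∀ i : Fin n, IsSmoothVariety G (K i.succ) (R i) (A i) (ψ i)) →
      (∀ i : Fin n, IsCurveOrLinear p G (K 0) R₀ (A i)) →
      ∀ (X : Scheme.{0}) (f : X ⟶ Spec (CommRingCat.of κ)) (ξ : Spec (CommRingCat.of E) ⟶ X),
      IsQuotient G (K 0) R₀ A f ξ → HasResolution f := by
  intro κ _ _ p _ _ G _ _ E _ _ _ _
  have hκE : ∀ (g : G) (a : κ), g • algebraMap κ E a = algebraMap κ E a := fun g c => by
    rw [Algebra.algebraMap_eq_smul_one, smul_comm, smul_one]
  have hti' : ∀ t : E, (∀ g : G, g • t = t) → ∀ x ∈ IntermediateField.adjoin κ {t}, ∀ g : G,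
      g • x = x := by
    intro t ht x hx
    have h1 : IntermediateField.adjoin κ {t} ≤ (FixedPoints.intermediateField G : IntermediateField κ E) := by
      rw [IntermediateField.adjoin_le_iff]
      rintro y rfl
      exact ht
    exact h1 hx
  constructor
  · rintro K ⟨hst, t, θ, ht, hti, hθ, hK⟩
    let _ : MulSemiringAction G K := Pool.Agent.K3h75.LL.actL K hst
    obtain ⟨hRF, _, _, _, hφ⟩ := Pool.Agent.K3h75.LL.exists_ratFunc' ht hθ hK
    obtain ⟨A, ψ, hA, hD⟩ := Pool.Agent.K3h37.LL.t_CVA Pool.Agent.K3h55.CV.t_CURVE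
      Pool.Agent.K3h66.FF.t_REGSM κ K G (fun g c => Subtype.ext (hti' t hti _ (hφ c) g))
    refine ⟨fun s => (A s).map K.val, fun s => ψ s, ⟨?_, ?_, ?_, ?_, ?_, ?_, ?_, ?_, ?_, ?_, ?_⟩,
      fun s => Pool.Agent.K3h75.LL.map_dd (hD s)⟩
    · intro g y hy
      rw [Algebra.mem_bot] at hy ⊢
      obtain ⟨c, rfl⟩ := hy
      exact ⟨c, (hκE g c).symm⟩
    · rw [← Subalgebra.fg_iff_finiteType]
      exact Subalgebra.fg_bot
    · exact fun _ => bot_le
    · intro s
      refine ⟨?_, ?_, Pool.Agent.K3h75.LL.map_le K _, Pool.Agent.K3h75.LL.map_fr (hA.fr s)⟩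
      · rintro g y ⟨x, hx, rfl⟩
        exact ⟨_, hA.st s g x hx, rfl⟩
      · have _ := hA.sm s
        exact Pool.Agent.K3h75.LL.map_ft inferInstance
    · exact fun s => Pool.Agent.K3h75.LL.map_sm (hA.sm s)
    · exact fun s => (ψ s).2
    · exact fun s h => hA.ne s (Subtype.ext h)
    · exact fun s g => congrArg Subtype.val (hA.inv s g)
    · exact fun s t => ⟨_, hA.sec s t, rfl⟩
    · rintro s t y ⟨x, hx, rfl⟩
      obtain ⟨N, hN⟩ := hA.glu s t x hx
      exact ⟨N, _, hN, rfl⟩
    · intro V hV
      obtain ⟨s, hs⟩ := hA.cov V fun y hy => hV y (by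
        rw [Algebra.mem_bot] at hy ⊢
        obtain ⟨c, rfl⟩ := hy
        exact ⟨c, rfl⟩)
      refine ⟨s, ?_⟩
      rintro y ⟨x, hx, h⟩
      have h1 : x = y := Subtype.ext h
      rw [← h1]
      exact hs x hx
  · intro n K hE R₀ hC S _ R A ψ hA hcl X f ξ hX
    classical
    have _ := hX.integral
    have _ := hX.separated
    have _ := hX.finiteType.1
    have _ := hX.finiteType.2
    have hFIL := Pool.Agent.K3h19.LL.t_FIL Pool.Agent.K3h66.LL.t_UNI Pool.Agent.K3h12.LL.t_PR
      Pool.Agent.K3h74.LL.t_PFC (Pool.Agent.K3h60.LL.t_CRV Pool.Agent.K3h66.LL.t_UNI)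
      Pool.Agent.K3h33.LL.t_LIN Pool.Agent.K3h33.LL.t_NRM
    -- the actions on the subfields
    let _ : ∀ i, MulSemiringAction G (K i) := fun i =>
      Pool.Agent.K3h75.LL.actL (K i) fun g => hE.stable g i
    have hsm : ∀ i (g : G) (y : K i), ((g • y : K i) : E) = g • (y : E) := fun _ _ _ => rfl
    obtain ⟨-, t, θ, ht, hti, hθ, hK⟩ := hC.field
    obtain ⟨hRF, hfd, hsep, htow, hφ⟩ := Pool.Agent.K3h75.LL.exists_ratFunc' ht hθ hK
    have hfaith : FaithfulSMul G (K 0) := by
      refine ⟨fun {g₁ g₂} h => ?_⟩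
      have h1 : g₂⁻¹ * g₁ = 1 := hC.faithful _ fun y hy => by
        have h2 := congrArg (fun z : K 0 => (z : E)) (h ⟨y, hy⟩)
        have h3 : g₁ • y = g₂ • y := h2
        rw [mul_smul, h3, inv_smul_smul]
      rw [inv_mul_eq_one] at h1
      exact h1.symm
    -- the field of invariants
    obtain ⟨F, hF⟩ : ∃ F : IntermediateField κ E, ∀ x, x ∈ F ↔ ∀ g : G, g • x = x :=
      ⟨FixedPoints.intermediateField G, fun _ => Iff.rfl⟩
    have hfix : ∀ x : E, (∀ g : G, g • x = x) ↔ ∃ y : F, algebraMap F E y = x := fun x =>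
      ⟨fun h => ⟨⟨x, (hF x).2 h⟩, rfl⟩, by
        rintro ⟨y, rfl⟩
        exact (hF _).1 y.2⟩
    have hCF : ∀ U : Fin (n + 1) → Subalgebra κ E, ∀ y ∈ chartRing G U, y ∈ F := fun U y hy =>
      (hF y).2 hy.2
    -- the generic point of the quotient
    obtain ⟨ξ', hξ'⟩ : ∃ ξ' : Spec (CommRingCat.of F) ⟶ X,
        Spec.map (CommRingCat.ofHom (algebraMap F E)) ≫ ξ' = ξ := by
      have h1 : Nonempty X := inferInstance
      obtain ⟨U, u, hU, hu, -⟩ := hX.cover h1.some
      obtain ⟨u', h2, h3, h4, h5⟩ := Pool.Agent.K3h75.LL.chartF F f ξ (chartRing G U) (hCF U) u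
        hu.openImmersion hu.structureMorphism hu.generic
      exact ⟨_, h4⟩
    have hchF : ∀ (U : Fin (n + 1) → Subalgebra κ E)
        (u : Spec (CommRingCat.of (chartRing G U)) ⟶ X),
        IsOpenChart f ξ (chartRing G U) u →
        ∃ u' : Spec (CommRingCat.of (Pool.Agent.K3h75.LL.cm F (chartRing G U))) ⟶ X,
          Pool.Agent.K3h75.FF.OpenChart f ξ' (Pool.Agent.K3h75.LL.cm F (chartRing G U)) u' ∧
          Set.range u' = Set.range u := by
      intro U u hu
      obtain ⟨u', h2, h3, h4, h5⟩ := Pool.Agent.K3h75.LL.chartF F f ξ (chartRing G U) (hCF U) u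
        hu.openImmersion hu.structureMorphism hu.generic
      refine ⟨u', ⟨h2, h3, ?_⟩, h5⟩
      apply Pool.Agent.K3h75.LL.spec_epi (E := E)
      rw [h4, hξ']
    -- the atlases
    have hA' : ∀ i, Pool.Agent.K3h75.LL.Atl G (Pool.Agent.K3h75.LL.cm (K i.succ) (R i))
        (fun s => Pool.Agent.K3h75.LL.cm (K i.succ) (A i s))
        (fun s => (⟨ψ i s, (hA i).mem s⟩ : K i.succ)) := by
      intro i
      have hne : Nonempty (S i) := by
        obtain ⟨s, -⟩ := (hA i).proper ⊤ fun _ _ => trivial
        exact ⟨s⟩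
      refine ⟨?_, ?_, ?_, ?_, ?_, ?_, ?_, ?_, ?_, ?_, ?_⟩
      · exact fun g y hy => (hA i).base_stable g y hy
      · exact Pool.Agent.K3h75.LL.cm_ft
          (fun y hy => ((hA i).affine hne.some).le y ((hA i).base_le _ hy)) (hA i).base_finiteType
      · exact fun s => Pool.Agent.K3h75.LL.cm_le ((hA i).base_le s)
      · exact fun s g y hy => ((hA i).affine s).stable g y hy
      · exact fun s => Pool.Agent.K3h75.LL.cm_sm ((hA i).affine s).le ((hA i).smooth s)
      · intro s
        apply Pool.Agent.K3h75.LL.cm_fr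
        intro y hy
        obtain ⟨a, ha, b, hb, hb0, h⟩ := ((hA i).affine s).fraction y hy
        exact ⟨a, ha, b, hb, ((hA i).affine s).le a ha, ((hA i).affine s).le b hb, hb0, h⟩
      · exact fun s h => (hA i).ne_zero s (congrArg Subtype.val h)
      · exact fun s g => Subtype.ext ((hA i).invariant s g)
      · exact fun s t => (hA i).regular s t
      · intro s t y hy
        obtain ⟨N, hN⟩ := (hA i).glued s t y hy
        exact ⟨N, hN⟩
      · exact fun V hV => (hA i).proper V hV
    -- stable affine open subsets of the curve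
    have hAf : ∀ O : Subalgebra κ E, R₀ ≤ O → IsAffine G (K 0) O → IsDedekindDomain O →
        Pool.Agent.K3h75.LL.AfC G (Pool.Agent.K3h75.LL.cm (K 0) R₀)
          (Pool.Agent.K3h75.LL.cm (K 0) O) := by
      intro O hO hOA hOD
      refine ⟨Pool.Agent.K3h75.LL.cm_le hO, fun g y hy => hOA.stable g y hy,
        Pool.Agent.K3h75.LL.cm_dd hOA.le hOD, Pool.Agent.K3h75.LL.cm_ft hOA.le hOA.finiteType, ?_⟩
      apply Pool.Agent.K3h75.LL.cm_fr
      intro y hy
      obtain ⟨a, ha, b, hb, hb0, h⟩ := hOA.fraction y hy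
      exact ⟨a, ha, b, hb, hOA.le a ha, hOA.le b hb, hb0, h⟩
    have hR₀K : ∀ y ∈ R₀, y ∈ K 0 := by
      rcases hC.base with h | h
      · intro y hy
        rw [h, Algebra.mem_bot] at hy
        obtain ⟨c, rfl⟩ := hy
        exact (K 0).algebraMap_mem c
      · exact h.1.le
    have hR₀ : Pool.Agent.K3h75.LL.cm (K 0) R₀ = ⊥ ∨
        Pool.Agent.K3h75.LL.AfC G (Pool.Agent.K3h75.LL.cm (K 0) R₀)
          (Pool.Agent.K3h75.LL.cm (K 0) R₀) := by
      rcases hC.base with h | h
      · left
        rw [h, Pool.Agent.K3h75.LL.cm_bot]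
      · right
        exact hAf R₀ le_rfl h.1 h.2
    -- the inertia groups
    have hInG : ∀ V : ValuationSubring (K 0), Pool.Agent.K3h75.LL.InG G V = inertiaGroup G V := by
      intro V
      ext g
      constructor
      · intro hg y hy
        obtain ⟨e, he, h⟩ := hg y hy
        exact ⟨e, ValuationSubring.coe_mem_nonunits_iff.2 he, congrArg Subtype.val h⟩
      · intro hg y hy
        obtain ⟨e, he, h⟩ := hg y hy
        obtain ⟨h1, h2⟩ := ValuationSubring.mem_nonunits_iff_exists_mem_maximalIdeal.1 he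
        exact ⟨⟨e, h1⟩, h2, Subtype.ext h⟩
    -- the rings of the charts
    have hmem : ∀ (O : Subalgebra κ (K 0)) (a : ∀ i : Fin n, Subalgebra κ (K i.succ))
        (U : Fin (n + 1) → Subalgebra κ E), (∀ y : K 0, (y : E) ∈ U 0 ↔ y ∈ O) →
        (∀ y ∈ U 0, y ∈ K 0) → (∀ (i : Fin n) (y : K i.succ), (y : E) ∈ U i.succ ↔ y ∈ a i) →
        (∀ i : Fin n, ∀ y ∈ U i.succ, y ∈ K i.succ) → ∀ y : F,
        y ∈ Pool.Agent.K3h75.LL.cm F (chartRing G U) ↔ algebraMap F E y ∈
          Pool.Agent.K3h75.LL.DO (K := fun i => ↥(K i)) E O a := by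
      intro O a U h0 h0' h1 h1' y
      have h2 : ∀ i, ∀ x ∈ U i, x ∈ Pool.Agent.K3h75.LL.DO (K := fun i => ↥(K i)) E O a := by
        refine Fin.cases ?_ ?_
        · intro x hx
          exact Pool.Agent.K3h75.LL.mem_DO_base (K := fun i => ↥(K i)) (E := E) (a := a)
            ((h0 ⟨x, h0' x hx⟩).1 hx)
        · intro i x hx
          exact Pool.Agent.K3h75.LL.mem_DO (K := fun i => ↥(K i)) (E := E) (O := O)
            ((h1 i ⟨x, h1' i x hx⟩).1 hx)
      rw [Pool.Agent.K3h75.LL.mem_cm]
      constructor
      · intro hy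
        let D : Subalgebra κ E :=
          { carrier := {x | x ∈ Pool.Agent.K3h75.LL.DO (K := fun i => ↥(K i)) E O a}
            mul_mem' := fun {a b} ha hb => (Pool.Agent.K3h75.LL.DO (K := fun i => ↥(K i)) E O
              _).mul_mem ha hb
            add_mem' := fun {a b} ha hb => (Pool.Agent.K3h75.LL.DO (K := fun i => ↥(K i)) E O
              _).add_mem ha hb
            algebraMap_mem' := fun r => h2 0 _ ((U 0).algebraMap_mem r) }
        have h3 : (⨆ i, U i) ≤ D := iSup_le fun i x hx => h2 i x hx
        exact h3 hy.1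
      · intro hy
        have h3 : ∀ x ∈ Pool.Agent.K3h75.LL.DO (K := fun i => ↥(K i)) E O a, x ∈ ⨆ i, U i := by
          refine Pool.Agent.K3h75.LL.DO_ind ?_ ?_ ?_ ?_
          · intro x hx
            exact (le_iSup U 0) ((h0 x).2 hx)
          · intro i x hx
            exact (le_iSup U i.succ) ((h1 i x).2 hx)
          · intro x y hx hy
            exact Subalgebra.add_mem _ hx hy
          · intro x y hx hy
            exact Subalgebra.mul_mem _ hx hy
        exact ⟨h3 _ hy, (hF _).1 y.2⟩
    refine Pool.Agent.K3h75.LL.t10 (K := fun i => ↥(K i)) (E := E) (F := F) (G := G)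
      Pool.Agent.Y949.H.t_EXT2 Pool.Agent.Y153.H.t_RES2
      Pool.Agent.K3h77.FF.t_ATLAS2D
      (Pool.Agent.K3h38.FF.t_ASTEP2D Pool.Agent.Y232.G.t_GENS Pool.Agent.Y232.G.t_VAL
        Pool.Agent.Y86.G.t_LOWFT (Pool.Agent.Y44.G.t_LOWREG
          (Pool.Agent.Y642.G.t_I0REG Pool.Agent.Y878.G.t_LOCJ)
          (Pool.Agent.Y737.G.t_LRA Pool.Agent.Y878.G.t_LOCJ Pool.Agent.Y484.G.t_WQR)
          Pool.Agent.Y86.G.t_LOWFT))
      (Pool.Agent.K3h77.FF.t_DOWND (Pool.Agent.Y705.G.t_D0
        (Pool.Agent.Y642.G.t_I0REG Pool.Agent.Y878.G.t_LOCJ))) Pool.Agent.K3h77.FF.all_MODELD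
      (Pool.Agent.K3h75.FF.t_RAMF2 Pool.Agent.K3h75.FF.t_RAM1F)
      Pool.Agent.Y223.G.all_CHW Pool.Agent.K3h8.LL.t_TP Pool.Agent.K3h48.LL.t_TPS hFIL
      Pool.Agent.K3h48.LL.t_FEQ Pool.Agent.K3h74.LL.t_FDD
      Pool.Agent.K3h8.NumF.t_NUMF Pool.Agent.K3h53.LL.t_FGC Pool.Agent.K3h70.LL.t_FGL
      Pool.Agent.K3h77.FF.t_TAMF
      Pool.Agent.K3h8.FormsK.t_INV Pool.Agent.K3h55.CV.t_CURVE Pool.Agent.K3h37.LL.t_DRG
      Pool.Agent.K3h66.FF.t_REGSM
      Pool.Agent.K3h64.FF.t_SCH3 Pool.Agent.K3h66.FF.t_GLUB p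
      (fun g c => Subtype.ext (hti' t hti _ (hφ c) g)) (fun i g a => Subtype.ext (hκE g a))
      (fun i g a => rfl) hE.linearlyDisjoint ?_ hfix (Pool.Agent.K3h75.LL.cm (K 0) R₀)
      hR₀ (fun V hV => ?_) (fun i => Pool.Agent.K3h75.LL.cm (K i.succ) (R i))
      (fun i s => Pool.Agent.K3h75.LL.cm (K i.succ) (A i s))
      (fun i s => ⟨ψ i s, (hA i).mem s⟩) hA'
      (fun i => ∀ s, IsDedekindDomain (A i s))
      (fun i h s => Pool.Agent.K3h75.LL.cm_dd ((hA i).affine s).le (h s)) ?_ X f ξ' ?_ ?_
    · intro L hL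
      let L' : IntermediateField κ E := L.toIntermediateField fun c => hL 0 (algebraMap κ (K 0) c)
      have h1 : (⨆ i, K i) ≤ L' := iSup_le fun i x hx => hL i ⟨x, hx⟩
      rw [hE.generates, top_le_iff] at h1
      rw [eq_top_iff]
      intro x _
      have h2 : x ∈ L' := by
        rw [h1]
        exact IntermediateField.mem_top
      exact h2
    · rw [hInG V]
      exact hC.inertia V fun y hy => hV y hy
    · intro i hi g hg1 hgp ⟨V, hV, hgV⟩ s
      have hloc := (hcl i).resolve_left hi g V hg1 hgp (fun y hy => hV y hy)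
        (by rw [← hInG V]; exact hgV) s
      have h1 : Pool.Agent.K3h75.LL.LocL' (Pool.Agent.K3h75.LL.rsA (A i s) hκE
          ((hA i).affine s).stable g) := by
        intro q hq hfq
        obtain ⟨f, hf, m, y, hy, hlin⟩ := hloc q hq fun a => ⟨_, hfq a, rfl⟩
        refine ⟨f, hf, m, y, hy, fun l => ?_⟩
        have h2 := hlin l
        have h3 : (Set.range fun j => ((y j : A i s) : E)) =
            (A i s).val.toLinearMap '' (Set.range y) := by
          rw [← Set.range_comp]
          rfl
        rw [h3, ← Submodule.map_span] at h2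
        obtain ⟨z, hz, hzy⟩ := h2
        have h4 : z = (Pool.Agent.K3h75.LL.rsA (A i s) hκE ((hA i).affine s).stable g) (y l) := by
          apply Subtype.ext
          exact hzy
        rw [← h4]
        exact hz
      exact Pool.Agent.K3h75.LL.locL_equiv
        (Pool.Agent.K3h75.LL.cmE (K i.succ) (A i s) ((hA i).affine s).le).symm _ _
        (fun a => rfl) h1
    · intro O s hO
      let U : Fin (n + 1) → Subalgebra κ E := Fin.cons (O.map (K 0).val) fun i => A i (s i)
      have hU : IsProductChart G (K 0) R₀ A U := by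
        refine ⟨?_, ⟨?_, ?_, ?_, ?_⟩, ?_, fun i => ⟨s i, rfl⟩⟩
        · intro y hy
          exact ⟨⟨y, hR₀K y hy⟩, hO.le hy, rfl⟩
        · rintro g y ⟨x, hx, rfl⟩
          exact ⟨_, hO.st g x hx, rfl⟩
        · exact Pool.Agent.K3h75.LL.map_ft hO.ft
        · exact Pool.Agent.K3h75.LL.map_le (K 0) O
        · exact Pool.Agent.K3h75.LL.map_fr hO.fr
        · exact Pool.Agent.K3h75.LL.map_dd hO.dd
      obtain ⟨u, hu⟩ := hX.chart U hU
      obtain ⟨u', hu', -⟩ := hchF U u hu
      refine ⟨_, u', fun y => hmem O _ U ?_ hU.affine.le (fun _ _ => Iff.rfl)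
        (fun i => ((hA i).affine (s i)).le) y, hu'⟩
      intro y
      change (y : E) ∈ O.map (K 0).val ↔ _
      rw [← Pool.Agent.K3h75.LL.mem_cm, Pool.Agent.K3h75.LL.cm_map]
    · intro y
      obtain ⟨U, u, hU, hu, hy⟩ := hX.cover y
      choose s hs using hU.member
      obtain ⟨u', hu', hr⟩ := hchF U u hu
      refine ⟨Pool.Agent.K3h75.LL.cm (K 0) (U 0), s, _, u', Pool.Agent.K3h75.LL.cm_le hU.le,
        fun y => hmem _ _ U (fun _ => Iff.rfl) hU.affine.le ?_ ?_ y, hu', ?_⟩
      · intro i y
        rw [hs i]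
        exact Iff.rfl
      · intro i
        rw [hs i]
        exact ((hA i).affine (s i)).le
      · rw [hr]
        exact hy

end Pool.Agent.Results.MP_19ffc6_ag.ProductQuotients
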