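import Pool.Agent.K3h75.FF.T4
import Pool.Agent.K3h75.FF.RamG
import Pool.Agent.K3h75.FF.Ram1
import Pool.Agent.K3h64.FF.Sch3
import Pool.Agent.K3h66.FF.Glub
import Pool.Agent.K3h77.FF.D1
import Pool.Agent.K3h77.FF.D3
import Pool.Agent.K3h38.FF.Astep2D
import Pool.Agent.K3h66.FF.Xg
import Pool.Agent.K3h66.FF.RegSm
import Pool.Agent.K3h8.FormsK
import Pool.Agent.K3h55.CV.Curve
import Pool.Agent.K3h66.FF.FmlU
import Pool.Agent.K3h77.FF.Tamf
import Pool.Agent.K3h8.NumF
import Pool.Agent.Y223.G.AllW
import Pool.Agent.Y563.G.Wch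
import Pool.Agent.Y901.G.Wreg
import Pool.Agent.K3h75.TO.VNz
import Pool.Agent.K3h26.Lat
import Pool.Agent.K3h8.Exb
import Pool.Agent.K3h77.EXA
import Pool.Agent.K3h77.EXC
import Pool.Agent.K3h21.TO.Exd

/-!
MP_19ffc6_ag: resolution of singularities of the quotients `(C × X_P) / G` of the products of a curve
and a smooth projective toric variety by finite groups, in every dimension, with wild inertia of
order `p`.

Let `C` be a smooth curve over a perfect field `κ` of characteristic `p`, projective or affine, with
a faithful action of the finite group `G` such that the order of the inertia group of every point is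
not divisible by `p ^ 2`. Let `G` act on a lattice `Λ`, and let `P` be a `G`-stable smooth polytope
in `Λ` with the smooth projective toric variety `X_P`. Then `G` acts on `C × X_P`, and the quotient
has a resolution of singularities.

The quotient is singular at the images of the fixed points. At a wild fixed point of the curve, with
the automorphism `σ` of order `p` and the ramification number `l`, we add the homogeneous
coordinates `(σ ^ e - 1) ^ a (x μ - x ν)` with the weight `(a + 1) l` (see
MP_4d1008_ag.AlgebraicTori). The weighted blowup of `C × X_P` is regular, and the leading form of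
`σ - 1` has no zeros outside the vertex. So the quotient of the weighted blowup by the wild inertia
group is regular up to a diagonalizable group. New in comparison with the local version
(ToricGroupQuotients, now in helper files): (1) the charts over two affine pieces of a projective
curve are glued; (2) the destackification (project G of the starting library) is followed chart by
chart, to show that the model dominates the charts of the quotient, and so that the birational map
from the regular model to the quotient is a morphism.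

Project of helper75; helpers 77, 38, 64, 66 (control of the charts, morphism to the quotient), 66,
12, 77, 8, 55 (bricks of the version for function fields), and 26, 44, 9, 22, 21 (bricks of
MP_4d1008_ag.AlgebraicTori used here).
-/

set_option autoImplicit false

open AlgebraicGeometry CategoryTheory

namespace Pool.Agent.Results.MP_19ffc6_ag.ToricQuotientsOverCurves

/-- `P` is the set of the lattice points of a smooth polytope, in the following sense: for every
`μ ∈ P` there is a vertex `v` of the smallest face which contains `μ` (that is, a multiple of `μ` is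
a sum of points of `P` one of which is `v`) such that the neighbours `v + b i` of `v` in `P` on the
edges through `v` form, together with `v`, an affine basis of the lattice, with respect to which all
points of `P` have nonnegative coordinates. -/
structure IsSmoothPolytope {Λ : Type} [AddCommGroup Λ] (P : Finset Λ) : Prop where
  nonempty : P.Nonempty
  vertex : ∀ μ ∈ P, ∃ v ∈ P,
    (∃ s : Multiset Λ, (∀ κ ∈ s, κ ∈ P) ∧ (s.card + 1) • μ = v + s.sum) ∧
    ∃ (n : ℕ) (b : Module.Basis (Fin n) ℤ Λ),
      (∀ i, v + b i ∈ P) ∧ ∀ κ ∈ P, ∀ i, 0 ≤ b.repr (κ - v) i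

/-- The inertia group of the valuation ring `V` of `M`: the elements of `G` which map `V` to itself
and act trivially on the residue field. -/
def inertiaGroup (G : Type) {M : Type} [Field M] [Group G] [MulSemiringAction G M]
    (V : ValuationSubring M) : Set G :=
  {g | ∀ y ∈ V, ∃ e : V, e ∈ IsLocalRing.maximalIdeal V ∧ (e : M) = g • y - y}

/-- `Spec O` is a smooth affine curve over `κ` with the function field `M`, on which `G` acts. -/
structure IsAffineCurve (G : Type) {κ M : Type} [Field κ] [Field M] [Algebra κ M] [Group G]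
    [MulSemiringAction G M] (O : Subalgebra κ M) : Prop where
  stable : ∀ (g : G), ∀ y ∈ O, g • y ∈ O
  dedekind : IsDedekindDomain O
  finiteType : Algebra.FiniteType κ O
  fraction : IsFractionRing O M

/-- `K` is the field of rational functions of the torus over `M` with the lattice of characters
`Λ`: it is generated over `M` by the characters `x a`, `a ∈ Λ`, which are multiplicative and linearly
independent over `M`; and the group `G` acts on `K` through its actions on `M` and on `Λ`. -/
structure IsTorusFunctionField {M G Λ K : Type} [Field M] [Group G] [MulSemiringAction G M]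
    [AddCommGroup Λ] [DistribMulAction G Λ] [Field K] [Algebra M K] [MulSemiringAction G K]
    (x : Λ → K) : Prop where
  zero : x 0 = 1
  add : ∀ a b, x (a + b) = x a * x b
  linearIndependent : LinearIndependent M x
  generates : IntermediateField.adjoin M (Set.range x) = ⊤
  semilinear : ∀ (g : G) (c : M), g • algebraMap M K c = algebraMap M K (g • c)
  equivariant : ∀ (g : G) (a : Λ), g • x a = x (g • a)

/-- The sums of `N` elements of `P`. -/
def sums {Λ : Type} [AddCommGroup Λ] (P : Finset Λ) (N : ℕ) : Set Λ :=
  {μ | ∃ s : Multiset Λ, (∀ ν ∈ s, ν ∈ P) ∧ s.card = N ∧ s.sum = μ}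

/-- `Spec O` is a `G`-stable affine open subset of the curve, the elements of `R` are regular on
`Spec O`, and `Φ` is a `G`-invariant homogeneous form of degree `N ≥ 1` on the toric variety with the
polytope `P`, with coefficients in `O`: the open subset `Φ ≠ 0` of `Spec O × X_P` is affine and
`G`-stable. -/
structure IsInvariantForm (G : Type) {κ M Λ K : Type} [Field κ] [Field M] [Algebra κ M] [Group G]
    [MulSemiringAction G M] [AddCommGroup Λ] [Field K] [Algebra M K] [MulSemiringAction G K]
    (x : Λ → K) (P : Finset Λ) (R O : Subalgebra κ M) (N : ℕ) (Φ : K) : Prop where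
  le : R ≤ O
  curve : IsAffineCurve G O
  degree : 1 ≤ N
  form : Φ ∈ Submodule.span O (x '' sums P N)
  ne_zero : Φ ≠ 0
  invariant : ∀ g : G, g • Φ = Φ

/-- The ring of invariants of `G` on the coordinate ring of the open subset `Φ ≠ 0` of the product
of `Spec O` and the toric variety with the polytope `P`, as a subring of the field `F` of invariants
of `K`. -/
def chartRing {κ M Λ K : Type} (F : Type) [Field κ] [Field M] [Algebra κ M] [AddCommGroup Λ]
    [Field K] [Algebra M K] [Field F] [Algebra κ F] [Algebra κ K] [Algebra F K]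
    [IsScalarTower κ F K] [IsScalarTower κ M K] (x : Λ → K) (P : Finset Λ) (O : Subalgebra κ M)
    (N : ℕ) (Φ : K) : Subalgebra κ F where
  carrier := {y | algebraMap F K y ∈ Algebra.adjoin O {y : K | ∃ μ ∈ sums P N, y = x μ / Φ}}
  mul_mem' := by
    intro a b ha hb
    change algebraMap F K (a * b) ∈ Algebra.adjoin O {y : K | ∃ μ ∈ sums P N, y = x μ / Φ}
    rw [map_mul]
    exact mul_mem ha hb
  add_mem' := by
    intro a b ha hb
    change algebraMap F K (a + b) ∈ Algebra.adjoin O {y : K | ∃ μ ∈ sums P N, y = x μ / Φ}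
    rw [map_add]
    exact add_mem ha hb
  algebraMap_mem' := by
    intro c
    change algebraMap F K (algebraMap κ F c) ∈
      Algebra.adjoin O {y : K | ∃ μ ∈ sums P N, y = x μ / Φ}
    rw [← IsScalarTower.algebraMap_apply κ F K, IsScalarTower.algebraMap_apply κ M K]
    exact Subalgebra.algebraMap_mem (Algebra.adjoin O _) (algebraMap κ O c)

/-- The morphism `u` identifies the spectrum of the subring `A` of `F` with an open subset of the
scheme `X` over `κ`, and it is compatible with the morphism `ξ` from the spectrum of `F` (the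
generic point of `X`). -/
structure IsOpenChart {κ F : Type} [Field κ] [Field F] [Algebra κ F] {X : Scheme.{0}}
    (f : X ⟶ Spec (CommRingCat.of κ)) (ξ : Spec (CommRingCat.of F) ⟶ X) (A : Subalgebra κ F)
    (u : Spec (CommRingCat.of A) ⟶ X) : Prop where
  openImmersion : IsOpenImmersion u
  structureMorphism : u ≫ f = Spec.map (CommRingCat.ofHom (algebraMap κ A))
  generic : Spec.map (CommRingCat.ofHom (algebraMap A F)) ≫ u = ξ

/-- `X` is the quotient `(C × X_P) / G`, where `C` is the smooth curve with the function field `M`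
whose points are the valuation rings which contain `R`: an integral separated scheme of finite type
over `κ` with the function field `F` (with the morphism `ξ` from the spectrum of `F`), covered by the
quotients of the stable affine open subsets `Φ ≠ 0` of `Spec O × X_P`. -/
structure IsQuotient (G : Type) {κ M Λ K F : Type} [Field κ] [Field M] [Algebra κ M] [Group G]
    [MulSemiringAction G M] [AddCommGroup Λ] [Field K] [Algebra M K] [MulSemiringAction G K]
    [Field F] [Algebra κ F] [Algebra κ K] [Algebra F K] [IsScalarTower κ F K]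
    [IsScalarTower κ M K] (x : Λ → K) (P : Finset Λ) (R : Subalgebra κ M) {X : Scheme.{0}}
    (f : X ⟶ Spec (CommRingCat.of κ)) (ξ : Spec (CommRingCat.of F) ⟶ X) : Prop where
  integral : AlgebraicGeometry.IsIntegral X
  separated : IsSeparated f
  finiteType : LocallyOfFiniteType f ∧ QuasiCompact f
  chart : ∀ (O : Subalgebra κ M) (N : ℕ) (Φ : K), IsInvariantForm G x P R O N Φ →
    ∃ u, IsOpenChart f ξ (chartRing F x P O N Φ) u
  cover : ∀ y : X, ∃ (O : Subalgebra κ M) (N : ℕ) (Φ : K)
    (u : Spec (CommRingCat.of (chartRing F x P O N Φ)) ⟶ X),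
    IsInvariantForm G x P R O N Φ ∧ IsOpenChart f ξ (chartRing F x P O N Φ) u ∧ y ∈ Set.range u

/-- A resolution of singularities of the scheme `X` over the field `κ`: an integral scheme `Y`,
smooth over `κ`, with a proper morphism to `X` which is an isomorphism over a dense open subset. -/
def HasResolution {κ : Type} [Field κ] {X : Scheme.{0}} (f : X ⟶ Spec (CommRingCat.of κ)) : Prop :=
  ∃ (Y : Scheme.{0}) (π : Y ⟶ X), AlgebraicGeometry.IsIntegral Y ∧
    AlgebraicGeometry.IsProper π ∧ AlgebraicGeometry.Smooth (π ≫ f) ∧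
    ∃ U : X.Opens, Dense (U : Set X) ∧ IsIso (π ∣_ U)

/-- Let `κ` be a perfect field of characteristic `p`, and let `M` be the function field of a smooth
curve `C` over `κ` on which the finite group `G` acts faithfully. The curve `C` is projective
(`R = κ`) or the affine curve `Spec R`, and the orders of the inertia groups of its points are not
divisible by `p ^ 2`. Let `Λ` be a lattice with an action of `G`.

(1) There is a smooth polytope `P` in `Λ` which is stable under `G`.

(2) For every such polytope `P`, the quotient `(C × X_P) / G` by `G` of the product of `C` and the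
toric variety with the polytope `P` has a resolution of singularities. -/
theorem result :
    ∀ (κ : Type) [Field κ] [PerfectField κ] (p : ℕ) [Fact p.Prime] [CharP κ p]
      -- the function field of the curve, with the action of the group
      (M G : Type) [Field M] [Algebra (RatFunc κ) M] [FiniteDimensional (RatFunc κ) M]
      [Algebra.IsSeparable (RatFunc κ) M] [Algebra κ M] [IsScalarTower κ (RatFunc κ) M]
      [Group G] [Finite G] [MulSemiringAction G M] [SMulCommClass G (RatFunc κ) M]
      [FaithfulSMul G M]
      -- the curve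
      (R : Subalgebra κ M), R = ⊥ ∨ IsAffineCurve G R →
      (∀ V : ValuationSubring M, (∀ y ∈ R, y ∈ V) → ¬ p ^ 2 ∣ Nat.card (inertiaGroup G V)) →
      -- the lattice
      ∀ (Λ : Type) [AddCommGroup Λ] [Module.Free ℤ Λ] [Module.Finite ℤ Λ] [DistribMulAction G Λ],
      (∃ P : Finset Λ, IsSmoothPolytope P ∧ ∀ (g : G), ∀ μ ∈ P, g • μ ∈ P) ∧
      -- the polytope
      ∀ P : Finset Λ, IsSmoothPolytope P → (∀ (g : G), ∀ μ ∈ P, g • μ ∈ P) →
      -- the field of rational functions and the field of invariants
      ∀ (F K : Type) [Field F] [Field K] [Algebra κ F] [Algebra κ K] [Algebra M K] [Algebra F K]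
      [IsScalarTower κ F K] [IsScalarTower κ M K] [MulSemiringAction G K] (x : Λ → K),
      IsTorusFunctionField (M := M) (G := G) x →
      (∀ y : K, (∀ g : G, g • y = y) ↔ ∃ f : F, algebraMap F K f = y) →
      -- the quotient
      ∀ (X : Scheme.{0}) (f : X ⟶ Spec (CommRingCat.of κ)) (ξ : Spec (CommRingCat.of F) ⟶ X),
      IsQuotient G x P R f ξ → HasResolution f := by
  intro κ _ _ p _ _ M G _ _ _ _ _ _ _ _ _ _ _ R hR hin Λ _ _ _ _
  constructor
  · obtain ⟨P, hP, hPst⟩ := Pool.Agent.K3h75.TO.t_EXP Pool.Agent.K3h77.EXA.t_EXA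
      Pool.Agent.K3h8.Exb.t_EXB Pool.Agent.K3h77.EXC.t_EXC Pool.Agent.K3h75.TO.t_EXD G Λ
    exact ⟨P, ⟨hP.ne, hP.vx⟩, hPst⟩
  · intro P hP hPst F K _ _ _ _ _ _ _ _ _ x hx hfix X f ξ hX
    have _ := hX.integral
    have _ := hX.separated
    have _ := hX.finiteType.1
    have _ := hX.finiteType.2
    let ρ : G →* (K ≃ₐ[F] K) :=
      { toFun := fun g => { MulSemiringAction.toRingEquiv G K g with
          commutes' := fun f => (hfix _).2 ⟨f, rfl⟩ g }
        map_one' := by
          ext y
          exact one_smul G y
        map_mul' := fun g h => by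
          ext y
          exact mul_smul g h y }
    have hρ : ∀ g y, ρ g y = g • y := fun _ _ => rfl
    have hsums : ∀ N, sums P N = (Pool.Agent.K3h22.PK.Pk P N : Set Λ) := by
      intro N
      ext μ
      rw [Finset.mem_coe, Pool.Agent.K3h22.PK.mem_Pk]
      rfl
    have hset : ∀ (N : ℕ) (Φ : K), {y : K | ∃ μ ∈ sums P N, y = x μ / Φ} =
        {y : K | ∃ μ ∈ Pool.Agent.K3h22.PK.Pk P N, y = x μ / Φ} := by
      intro N Φ
      rw [hsums]
      rfl
    have hChR : ∀ (O : Subalgebra κ M) (N : ℕ) (Φ : K),
        Pool.Agent.K3h75.FF.ChR x P O N Φ (chartRing F x P O N Φ) := by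
      intro O N Φ y
      rw [← hset]
      rfl
    have hLOCJ : Pool.Agent.Y223.G.S_LOCJ := Pool.Agent.Y878.G.t_LOCJ
    have hI0 := Pool.Agent.Y642.G.t_I0REG hLOCJ
    have hLRA := Pool.Agent.Y737.G.t_LRA hLOCJ Pool.Agent.Y484.G.t_WQR
    have hLOWREG := Pool.Agent.Y44.G.t_LOWREG hI0 hLRA Pool.Agent.Y86.G.t_LOWFT
    have hD0 := Pool.Agent.Y705.G.t_D0 hI0
    refine Pool.Agent.K3h75.FF.t4 Pool.Agent.Y949.H.t_EXT2
      Pool.Agent.Y153.H.t_RES2 Pool.Agent.K3h77.FF.t_ATLAS2D
      (Pool.Agent.K3h38.FF.t_ASTEP2D Pool.Agent.Y232.G.t_GENS Pool.Agent.Y232.G.t_VAL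
        Pool.Agent.Y86.G.t_LOWFT hLOWREG)
      (Pool.Agent.K3h77.FF.t_DOWND hD0) Pool.Agent.K3h77.FF.all_MODELD
      (Pool.Agent.K3h75.FF.t_RAMF2 Pool.Agent.K3h75.FF.t_RAM1F)
      (Pool.Agent.Y769.H.t_GLW Pool.Agent.Y153.H.t_R2M Pool.Agent.Y223.G.all_RWB)
      (Pool.Agent.K3h75.FF.t_GFF Pool.Agent.Y153.H.t_RES2 Pool.Agent.Y223.G.all_RWB)
      Pool.Agent.Y223.G.all_CHW Pool.Agent.Y223.G.all_RWB Pool.Agent.Y614.H.RegL.t_REGL
      (Pool.Agent.K3h66.FF.t_XG Pool.Agent.Y153.H.t_R2M Pool.Agent.Y223.G.all_RWB)
      Pool.Agent.K3h77.FF.t_TAMF Pool.Agent.K3h8.NumF.t_NUMF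
      (Pool.Agent.K3h75.TV.t_PK2 Pool.Agent.K3h26.LAT.t_LAT)
      (Pool.Agent.K3h75.TO.t_VREG (Pool.Agent.Y563.GW.t_WCH Pool.Agent.Y901.G.t_WREG)
        Pool.Agent.K3h66.TO.t_IND Pool.Agent.K3h9.TO.t_JAC Pool.Agent.K3h44.Orb.t_ORB)
      (Pool.Agent.K3h75.TO.t_VNZ Pool.Agent.K3h44.Orb.t_ORB Pool.Agent.K3h8.FixZ.t_FIXZ)
      Pool.Agent.K3h66.TO.t_CHT Pool.Agent.K3h66.TO.t_CH0
      Pool.Agent.K3h66.FF.t_FMLU (Pool.Agent.K3h8.FormsK.t_FORMSK Pool.Agent.Y417.G.t_EXF)
      Pool.Agent.K3h8.FormsK.t_INV Pool.Agent.K3h55.CV.t_CURVE Pool.Agent.K3h66.FF.t_REGSM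
      Pool.Agent.K3h64.FF.t_SCH3 Pool.Agent.K3h66.FF.t_GLUB κ p M G
      (fun g c => by rw [Algebra.algebraMap_eq_smul_one, smul_comm, smul_one]) R
      (hR.imp_right fun h => ⟨h.stable, h.dedekind, h.finiteType, h.fraction⟩)
      (fun V hV => hin V hV) Λ P ⟨hP.nonempty, hP.vertex⟩ hPst F K ρ hfix
      (fun g c => hx.semilinear g c) x hx.zero hx.add hx.linearIndependent hx.generates
      (fun g a => hx.equivariant g a) X f ξ ?_ ?_
    · intro O N Φ h
      obtain ⟨u, hu⟩ := hX.chart O N Φ ⟨h.le, ⟨h.st, h.dd, h.ft, h.fr⟩, h.pos, by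
        rw [hsums]
        exact h.sp, h.ne, h.inv⟩
      exact ⟨_, u, hChR O N Φ, hu.openImmersion, hu.structureMorphism, hu.generic⟩
    · intro y
      obtain ⟨O, N, Φ, u, h, hu, hy⟩ := hX.cover y
      exact ⟨O, N, Φ, _, u, h.le, hChR O N Φ,
        ⟨hu.openImmersion, hu.structureMorphism, hu.generic⟩, hy⟩

end Pool.Agent.Results.MP_19ffc6_ag.ToricQuotientsOverCurves
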